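import Pool.Agent.MP_c4f89b_an.Mg.Main

namespace Pool.Agent.Results.MP_c4f89b_an.NonSigmaFinite

open Pool.Agent.MP_c4f89b_an MeasureTheory

/-- For `d ≥ 2` there is a dense `G_δ` set of homeomorphisms of `[0,1]^d` whose graphs are not
countable unions of sets of finite `d`-dimensional Hausdorff measure. -/
theorem result (d : ℕ) (hd : 2 ≤ d) :
    ∃ G : Set (Homeo d), IsGδ G ∧ Dense G ∧
      ∀ f ∈ G, ¬ ∃ A : ℕ → Set (EuclideanSpace ℝ (Fin (d + d))),
        graph f = ⋃ n, A n ∧ ∀ n, Measure.hausdorffMeasure (d : ℝ) (A n) < ⊤ :=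
  generic_not_sigmaFinite hd

end Pool.Agent.Results.MP_c4f89b_an.NonSigmaFinite
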